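import Pool.Agent.Helper12.NearMetric

/-!
# MP_606be1_nt: metric theory of near-coincidences between powers of `a` and `b`

Let `b > 1` be fixed (`b = e` in the problem) and let `N(x)` be the number of the pairs `(n, m)` with
`|a ^ n - b ^ m| ≤ x`.

* For all `a > 1` outside a set `E` the asymptotic of Q1 holds, with error `O(log x)`. The set `E` is
  a null set for the gauges `(log (1 / r)) ^ (-s)`, `s > 2`; in particular it has Hausdorff
  dimension zero.
* But for generic `a > 1` (in the sense of Baire) `N(x)` is infinite for every `x > 0`, although `a`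
  and `b` are multiplicatively independent.
* The set of these `a` is not a null set for the gauges `(log (1 / r)) ^ (-s)`, `0 < s < 2`, in any
  interval. So `2` is the exact logarithmic dimension of the set of the `a` for which the asymptotic
  of Q1 fails.
-/

set_option autoImplicit false

namespace Pool.Agent.Results.MP_606be1_nt.MetricTheory

open Real Filter Set Topology
open scoped ENNReal

/-- the pairs of natural numbers `(n, m)` with `|a ^ n - b ^ m| ≤ x` -/
def pairs (a b x : ℝ) : Set (ℕ × ℕ) := {p | |a ^ p.1 - b ^ p.2| ≤ x}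

/-- `E` is a null set for the gauge `(log (1 / r)) ^ (-s)`: for every `ε > 0` it can be covered by
countably many intervals `(c i - r i, c i + r i)`, `0 < r i < 1`, with
`∑ (log (1 / r i)) ^ (-s) ≤ ε`. -/
def LogNull (s : ℝ) (E : Set ℝ) : Prop :=
  ∀ ε : ℝ, 0 < ε → ∃ (ι : Type) (_ : Countable ι) (c r : ι → ℝ), (∀ i, 0 < r i ∧ r i < 1) ∧
    E ⊆ ⋃ i, Ioo (c i - r i) (c i + r i) ∧
    ∑' i, ENNReal.ofReal ((log (1 / r i)) ^ (-s)) ≤ ENNReal.ofReal ε

theorem irr_of {a b : ℝ} (ha : 1 < a) (hb : 1 < b) (h : ∀ q : ℚ, a ≠ b ^ (q : ℝ)) :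
    Irrational (log a / log b) := by
  rintro ⟨q, hq⟩
  apply h q
  have hlb : 0 < log b := log_pos hb
  have h1 : (q : ℝ) * log b = log a := by rw [hq]; field_simp
  rw [rpow_def_of_pos (by linarith), mul_comm, h1, exp_log (by linarith)]

theorem result (b : ℝ) (hb : 1 < b) :
    -- (1) the asymptotic holds off a very small set
    (∃ E : Set ℝ, (∀ s : ℝ, 2 < s → LogNull s E) ∧ dimH E = 0 ∧
      ∀ a : ℝ, 1 < a → a ∉ E → ∃ C : ℝ, ∀ x : ℝ, 2 ≤ x → (pairs a b x).Finite ∧
        |((pairs a b x).ncard : ℝ) - log x ^ 2 / (log a * log b)| ≤ C * log x) ∧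
    -- (2) it fails for generic `a`
    (∀ᶠ a in residual ℝ, 1 < a → Irrational (log a / log b) ∧
      ∀ x : ℝ, 0 < x → (pairs a b x).Infinite) ∧
    -- (3) the size of the exceptional set
    (∀ u v s : ℝ, 1 ≤ u → u < v → 0 < s → s < 2 →
      ¬ LogNull s {a | u < a ∧ a < v ∧ Irrational (log a / log b) ∧
        ∀ x : ℝ, 0 < x → (pairs a b x).Infinite}) := by
  refine ⟨⟨Pool.Agent.Helper12.NearGame.Exc b,
    fun s hs => Pool.Agent.Helper12.NearGame.exc_null hb hs,
    (Pool.Agent.Helper12.NearGame.exc_null hb (s := 3) (by norm_num)).dimH (by norm_num),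
    fun a ha hE => Pool.Agent.Helper12.NearGame.off_exc ha hb hE⟩, ?_, ?_⟩
  · have h1 := Pool.Agent.Helper12.NearGame.generic hb
    have h2 : ∀ᶠ a in residual ℝ, ∀ q : ℚ, a ≠ b ^ (q : ℝ) := by
      rw [eventually_countable_forall]
      intro q
      exact residual_of_dense_open isOpen_compl_singleton (dense_compl_singleton _)
    filter_upwards [h1, h2] with a k1 k2 ha
    exact ⟨irr_of ha hb k2, k1 ha⟩
  · intro u v s hu huv hs hs2 hnull
    refine Pool.Agent.Helper12.NearGame.not_null hb hs hs2 hu huv ?_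
    have hc : (range fun q : ℚ => b ^ (q : ℝ)).Countable := countable_range _
    refine Pool.Agent.Helper12.NearGame.LogNull.mono
      (Pool.Agent.Helper12.NearGame.LogNull.union hnull
        (Pool.Agent.Helper12.NearGame.LogNull.countable hs hc)) ?_
    rintro a ⟨h1, h2, h3⟩
    by_cases h : ∃ q : ℚ, b ^ (q : ℝ) = a
    · exact Or.inr h
    · left
      push Not at h
      exact ⟨h1, h2, irr_of (by linarith) hb fun q hq => h q hq.symm, h3⟩

end Pool.Agent.Results.MP_606be1_nt.MetricTheory
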